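import Pool.Agent.MP_856573_co.H74.Bas

/-! The boundary path: the neighbours of the corners `s1`, `s2` in a saturated supergraph. -/

namespace Pool.Agent.MP_856573_co.H74

open Set
open Pool.Agent.MP_31805c_co.H47 (Mac)
open Pool.Agent.MP_31805c_co.H93 (Conn)

namespace BE

variable {V : Type} [Fintype V] [DecidableEq V] {H : SimpleGraph V} {D : Finset V}
  {F : Finset (Finset V)}

omit [Fintype V] in
theorem face_adj (hT : Tri H D F) {a b c : V} (h : ({a, b, c} : Finset V) ∈ F) :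
    H.Adj a b ∧ H.Adj a c ∧ H.Adj b c ∧ a ∈ D ∧ b ∈ D ∧ c ∈ D := by
  obtain ⟨h1, h2⟩ := hT.face _ h
  obtain ⟨x, y, z⟩ := SimpleGraph.is3Clique_triple_iff.1 h2
  exact ⟨x, y, z, h1 (by simp), h1 (by simp), h1 (by simp)⟩

omit [Fintype V] in
theorem apex (hT : Tri H D F) {f : Finset V} (hf : f ∈ F) {u v : V} (huv : u ≠ v) (hu : u ∈ f)
    (hv : v ∈ f) : ∃ x, f = {u, v, x} := by
  have hc : f.card = 3 := (hT.face f hf).2.card_eq
  have h1 : ((f.erase u).erase v).card = 1 := by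
    rw [Finset.card_erase_of_mem (Finset.mem_erase.2 ⟨huv.symm, hv⟩), Finset.card_erase_of_mem hu,
      hc]
  obtain ⟨x, hx⟩ := Finset.card_eq_one.1 h1
  refine ⟨x, ?_⟩
  rw [← Finset.insert_erase hu, ← Finset.insert_erase (Finset.mem_erase.2 ⟨huv.symm, hv⟩ :
    v ∈ f.erase u), hx]

omit [Fintype V] in
theorem apex_eq (hT : Tri H D F) {u v x y : V} (h : ({u, v, x} : Finset V) ∈ F)
    (e : ({u, v, x} : Finset V) = {u, v, y}) : x = y := by
  obtain ⟨-, h2, h3, -⟩ := face_adj hT h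
  have : x ∈ ({u, v, y} : Finset V) := e ▸ by simp
  simp only [Finset.mem_insert, Finset.mem_singleton] at this
  rcases this with rfl | rfl | rfl
  · exact absurd rfl h2.ne
  · exact absurd rfl h3.ne
  · rfl

omit [Fintype V] in
/-- The two faces at an edge. -/
theorem two_faces (hT : Tri H D F) {u v : V} (hu : u ∈ D) (hv : v ∈ D) (ha : H.Adj u v) :
    ∃ x y, x ≠ y ∧ ({u, v, x} : Finset V) ∈ F ∧ ({u, v, y} : Finset V) ∈ F ∧
      ∀ w, ({u, v, w} : Finset V) ∈ F → w = x ∨ w = y := by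
  obtain ⟨f, g, hfg, e⟩ := Finset.card_eq_two.1 (hT.two u hu v hv ha)
  have hf : f ∈ F.filter fun f => u ∈ f ∧ v ∈ f := e ▸ by simp
  have hg : g ∈ F.filter fun f => u ∈ f ∧ v ∈ f := e ▸ by simp
  rw [Finset.mem_filter] at hf hg
  obtain ⟨x, rfl⟩ := apex hT hf.1 ha.ne hf.2.1 hf.2.2
  obtain ⟨y, rfl⟩ := apex hT hg.1 ha.ne hg.2.1 hg.2.2
  refine ⟨x, y, fun h => hfg (h ▸ rfl), hf.1, hg.1, fun w hw => ?_⟩
  have : ({u, v, w} : Finset V) ∈ F.filter fun f => u ∈ f ∧ v ∈ f :=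
    Finset.mem_filter.2 ⟨hw, by simp, by simp⟩
  rw [e] at this
  simp only [Finset.mem_insert, Finset.mem_singleton] at this
  rcases this with h | h
  · exact Or.inl (apex_eq hT hw h)
  · exact Or.inr (apex_eq hT hw h)

omit [Fintype V] in
theorem third (hT : Tri H D F) {u v a b c : V} (ha : ({u, v, a} : Finset V) ∈ F)
    (hb : ({u, v, b} : Finset V) ∈ F) (hc : ({u, v, c} : Finset V) ∈ F) (hab : a ≠ b)
    (hac : a ≠ c) : b = c := by
  obtain ⟨h1, -, -, hu, hv, -⟩ := face_adj hT ha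
  obtain ⟨x, y, -, -, -, h⟩ := two_faces hT hu hv h1
  rcases h a ha with rfl | rfl <;> rcases h b hb with rfl | rfl <;>
    rcases h c hc with h' | h' <;> simp_all

/-- A triangle whose removal leaves a connected graph is a face. -/
theorem face_of_cn (tb : StmtTB) (hT : Tri H D F) {u v w : V} (hu : u ∈ D) (hv : v ∈ D)
    (hw : w ∈ D) (a1 : H.Adj u v) (a2 : H.Adj u w) (a3 : H.Adj v w)
    (hc : Cn H ((D : Set V) \ {u, v, w})) : ({u, v, w} : Finset V) ∈ F := by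
  by_contra hn
  obtain ⟨x, y, hxy, hx, hy, -⟩ := two_faces hT hu hv a1
  have key : ∀ z, ({u, v, z} : Finset V) ∈ F → z ∈ (D : Set V) \ {u, v, w} := fun z hz => by
    obtain ⟨-, h2, h3, -, -, h6⟩ := face_adj hT hz
    refine ⟨h6, ?_⟩
    rintro (rfl | rfl | rfl)
    · exact h2.ne rfl
    · exact h3.ne rfl
    · exact hn hz
  refine tb.tsep V H D F hT u v w x y ⟨?_, SimpleGraph.is3Clique_triple_iff.2 ⟨a1, a2, a3⟩⟩ hn hx
    hy hxy (hc x (key x hx) y (key y hy))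
  intro z hz
  simp only [Finset.mem_insert, Finset.mem_singleton] at hz
  rcases hz with rfl | rfl | rfl <;> assumption

/-- The link of `s` from `x` round to `y`, with the vertex before `y` identified. -/
theorem link_end (lk : StmtLINK) (hT : Tri H D F) {s x y w : V}
    (h1 : ({s, x, y} : Finset V) ∈ F) (h2 : ({s, y, w} : Finset V) ∈ F) (hw : x ≠ w) :
    ∃ (l : ℕ → V) (a : ℕ), 1 ≤ a ∧ l 0 = x ∧ l a = w ∧ (∀ i ≤ a, ∀ j ≤ a, l i = l j → i = j) ∧
      (∀ i ≤ a, l i ≠ y ∧ l i ∈ D ∧ H.Adj s (l i)) ∧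
      (∀ i < a, ({s, l i, l (i + 1)} : Finset V) ∈ F) ∧
      ∀ u ∈ D, H.Adj s u → u = y ∨ ∃ i ≤ a, l i = u := by
  obtain ⟨l, d, hd, l0, ld, inj, fc, all⟩ := lk V H D F hT s x y h1
  obtain ⟨a, rfl⟩ : ∃ a, d = a + 1 := ⟨d - 1, by omega⟩
  have h3 : ({s, y, l a} : Finset V) ∈ F := by
    have := fc a (by omega)
    rwa [ld, Finset.pair_comm] at this
  have h4 : ({s, y, x} : Finset V) ∈ F := by rwa [Finset.pair_comm]
  have h5 : x ≠ l a := fun e => by
    have := inj 0 (by omega) a (by omega) (l0.trans e)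
    omega
  refine ⟨l, a, by omega, l0, (third hT h4 h2 h3 hw h5).symm,
    fun i hi j hj => inj i (by omega) j (by omega), fun i hi => ⟨fun e => ?_, ?_⟩,
    fun i hi => fc i (by omega), fun u hu ha => ?_⟩
  · have := inj i (by omega) (a + 1) le_rfl (e.trans ld.symm)
    omega
  · obtain ⟨b1, -, -, -, b2, -⟩ := face_adj hT (fc i (by omega))
    exact ⟨b2, b1⟩
  · obtain ⟨i, hi, e⟩ := all u hu ha
    rcases Nat.lt_or_ge a i with h | h
    · obtain rfl : i = a + 1 := by omega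
      exact Or.inl (e.symm.trans ld)
    · exact Or.inr ⟨i, h, e⟩

omit [Fintype V] [DecidableEq V] in
theorem nh_symm {G : SimpleGraph V} {U : Set V} {A B : V} (h : NH G U A B) : NH G U B A :=
  fun y hy v hv hne =>
    let ⟨e, h1, h2⟩ := h y hy v hv hne
    ⟨e, h1.symm, h2⟩

omit [Fintype V] [DecidableEq V] in
theorem nh_reach {G : SimpleGraph V} {U : Set V} {A B : V} (h : NH G U A B) (hA : A ∈ U) {v : V}
    (hv : v ∈ U) (hne : v ≠ A) : Conn G (U \ {A}) v B := by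
  obtain ⟨e, rfl | rfl, h2, h3⟩ := h A hA v hv hne
  · exact absurd rfl h2
  · exact h3

omit [Fintype V] [DecidableEq V] in
theorem nh_cn {G : SimpleGraph V} {U : Set V} {A B : V} (h : NH G U A B) (hA : A ∈ U)
    (hc : Conn G U A B) : Cn G U := by
  refine cn_of B fun v hv => ?_
  by_cases e : v = A
  · exact e ▸ hc
  · exact (nh_reach h hA hv e).mono sdiff_subset

omit [Fintype V] [DecidableEq V] in
theorem nh_congr {G G' : SimpleGraph V} {U : Set V} {A B : V} (h : NH G U A B)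
    (hG : ∀ u ∈ U, ∀ v ∈ U, G.Adj u v → G'.Adj u v) : NH G' U A B := fun y hy v hv hne =>
  let ⟨e, h1, h2, h3⟩ := h y hy v hv hne
  ⟨e, h1, h2, conn_congr (fun a ha b hb => hG a ha.1 b hb.1) h3⟩

/-- The situation after saturation: `K` is the saturated graph inside the triangulation `H`. -/
structure Sat (K H : SimpleGraph V) (D : Finset V) (F : Finset (Finset V)) (U : Set V)
    (A B s0 s1 s2 : V) : Prop where
  tri : Tri H D F
  le : K ≤ H
  mem : ∀ v, v ∈ D ↔ v ∈ U ∨ v = s0 ∨ v = s1 ∨ v = s2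
  sup : ∀ u v, K.Adj u v → u ∈ D
  hA : A ∈ U
  hB : B ∈ U
  ne : A ≠ B
  conn : Conn K U A B
  nh : NH K U A B
  n0 : s0 ∉ U
  n1 : s1 ∉ U
  n2 : s2 ∉ U
  a0 : K.Adj s0 A
  b0 : K.Adj s0 B
  a1 : K.Adj s1 A
  b2 : K.Adj s2 B
  e1 : K.Adj s0 s1
  e2 : K.Adj s0 s2
  e12 : s1 = s2 ∨ K.Adj s1 s2
  mx : ∀ s, s = s1 ∨ s = s2 → ∀ u ∈ U, Mac (K ⊔ SimpleGraph.edge s u) → K.Adj s u

variable {K : SimpleGraph V} {U : Set V} {A B s0 s1 s2 : V}

theorem Sat.symm (h : Sat K H D F U A B s0 s1 s2) : Sat K H D F U B A s0 s2 s1 :=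
  ⟨h.tri, h.le, fun v => by rw [h.mem]; tauto, h.sup, h.hB, h.hA, h.ne.symm, h.conn.symm,
    nh_symm h.nh, h.n0, h.n2, h.n1, h.b0, h.a0, h.b2, h.a1, h.e2, h.e1,
    h.e12.imp Eq.symm SimpleGraph.Adj.symm, fun s hs => h.mx s hs.symm⟩

theorem Sat.adj (tb : StmtTB) (h : Sat K H D F U A B s0 s1 s2) {u : V} (hu : u ∈ U)
    (ha : H.Adj s1 u) : K.Adj s1 u := by
  refine h.mx s1 (Or.inl rfl) u hu (mac_mono (tb.mac V H D F h.tri) (sup_le (fun a b hab =>
    ⟨h.le hab, h.sup a b hab, h.sup b a hab.symm⟩) fun a b hab => ?_))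
  have d1 : s1 ∈ D := (h.mem _).2 (by simp)
  have d2 : u ∈ D := (h.mem _).2 (Or.inl hu)
  rw [SimpleGraph.edge_adj] at hab
  rcases hab.1 with ⟨rfl, rfl⟩ | ⟨rfl, rfl⟩
  · exact ⟨ha, d1, d2⟩
  · exact ⟨ha.symm, d2, d1⟩

/-- Two vertices of `U` other than `z` are joined through the ends and `s0`. -/
theorem Sat.reach (h : Sat K H D F U A B s0 s1 s2) {z v : V} (hz : z ∈ U) (hv : v ∈ U)
    (hne : v ≠ z) : Conn K (insert s0 (U \ {z})) v s0 := by
  obtain ⟨e, he, h2, h3⟩ := h.nh z hz v hv hne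
  refine (h3.mono (subset_insert _ _)).trans (Conn.adj ?_ (Or.inr ⟨?_, h2⟩) (Or.inl rfl))
  · rcases he with rfl | rfl
    exacts [h.a0.symm, h.b0.symm]
  · rcases he with rfl | rfl
    exacts [h.hA, h.hB]

theorem Sat.face (tb : StmtTB) (h : Sat K H D F U A B s0 s1 s2) {x y : V} (hx : x ∈ U)
    (hy : y ∈ U) (hf : ({s1, x, y} : Finset V) ∈ F) : K.Adj x y := by
  by_contra hn
  obtain ⟨-, -, axy, -, dx, dy⟩ := face_adj h.tri hf
  have rot : ∀ w, ({x, y, w} : Finset V) = {w, x, y} := fun w => by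
    ext; simp only [Finset.mem_insert, Finset.mem_singleton]; tauto
  obtain ⟨z, hz, hsz⟩ : ∃ z, ({z, x, y} : Finset V) ∈ F ∧ s1 ≠ z := by
    obtain ⟨a, b, hab, ha, hb, -⟩ := two_faces h.tri dx dy axy
    by_cases e : s1 = a
    · exact ⟨b, rot b ▸ hb, e ▸ hab⟩
    · exact ⟨a, rot a ▸ ha, e⟩
  obtain ⟨zx, zy, -, dz, -, -⟩ := face_adj h.tri hz
  have hle : K ≤ (GD H D).deleteEdges {s(x, y)} := fun a b hab => by
    rw [SimpleGraph.deleteEdges_adj]
    refine ⟨⟨h.le hab, h.sup a b hab, h.sup b a hab.symm⟩, fun e => hn ?_⟩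
    rcases Sym2.eq_iff.1 (mem_singleton_iff.1 e) with ⟨rfl, rfl⟩ | ⟨rfl, rfl⟩
    exacts [hab, hab.symm]
  have hle' : ∀ a b, K.Adj a b → (H.deleteEdges {s(x, y)}).Adj a b := fun a b hab => by
    have := hle hab
    rw [SimpleGraph.deleteEdges_adj] at this ⊢
    exact ⟨this.1.1, this.2⟩
  have hadj : H.Adj s1 z := by
    by_contra hna
    rcases (h.mem z).1 dz with hU | rfl | rfl | rfl
    · exact hna (h.le (h.mx s1 (Or.inl rfl) z hU (mac_mono
        (tb.flip V H D F h.tri s1 z x y hf hz hsz hna) (sup_le_sup_right hle _))))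
    · exact hna (h.le h.e1.symm)
    · exact hsz rfl
    · exact hna (h.le (h.e12.resolve_left hsz))
  refine tb.sep V H D F h.tri s1 z x y hf hz hadj (conn_congr (fun a _ b _ => hle' a b) ?_)
  by_cases hU : z ∈ U
  · refine ((h.reach hU hx zx.ne').trans (h.reach hU hy zy.ne').symm).mono ?_
    rintro w (rfl | ⟨hw, hw'⟩)
    · refine ⟨(h.mem _).2 (by simp), ?_⟩
      rintro (e | e)
      · exact h.e1.ne e
      · exact h.n0 (mem_singleton_iff.1 e ▸ hU)
    · refine ⟨(h.mem _).2 (Or.inl hw), ?_⟩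
      rintro (e | e)
      · exact h.n1 (e ▸ hw)
      · exact hw' e
  · refine (nh_cn h.nh h.hA h.conn x hx y hy).mono fun w hw => ?_
    refine ⟨(h.mem _).2 (Or.inl hw), ?_⟩
    rintro (e | e)
    · exact h.n1 (e ▸ hw)
    · exact hU (mem_singleton_iff.1 e ▸ hw)

theorem Sat.f1 (tb : StmtTB) (h : Sat K H D F U A B s0 s1 s2) :
    ({s1, A, s0} : Finset V) ∈ F := by
  have hB : B ∈ (D : Set V) \ {s1, A, s0} := by
    refine ⟨(h.mem _).2 (Or.inl h.hB), ?_⟩
    rintro (e | e | e)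
    · exact h.n1 (e ▸ h.hB)
    · exact h.ne e.symm
    · exact h.n0 (mem_singleton_iff.1 e ▸ h.hB)
  refine face_of_cn tb h.tri ((h.mem _).2 (by simp)) ((h.mem _).2 (Or.inl h.hA))
    ((h.mem _).2 (by simp)) (h.le h.a1) (h.le h.e1.symm) (h.le h.a0.symm)
    (cn_of B fun v hv => ?_)
  have hv2 := hv.2
  simp only [mem_insert_iff, mem_singleton_iff, not_or] at hv2
  rcases (h.mem v).1 hv.1 with hU | e | e | rfl
  · refine conn_congr (fun a _ b _ hab => h.le hab) ((nh_reach h.nh h.hA hU hv2.2.1).mono ?_)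
    rintro w ⟨hw, hw'⟩
    refine ⟨(h.mem _).2 (Or.inl hw), ?_⟩
    rintro (e | e | e)
    · exact h.n1 (e ▸ hw)
    · exact hw' e
    · exact h.n0 (mem_singleton_iff.1 e ▸ hw)
  · exact absurd e hv2.2.2
  · exact absurd e hv2.1
  · exact Conn.adj (h.le h.b2) hv hB

theorem Sat.f12 (tb : StmtTB) (h : Sat K H D F U A B s0 s1 s2) (hne : s1 ≠ s2) :
    ({s1, s0, s2} : Finset V) ∈ F := by
  refine face_of_cn tb h.tri ((h.mem _).2 (by simp)) ((h.mem _).2 (by simp))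
    ((h.mem _).2 (by simp)) (h.le h.e1.symm) (h.le (h.e12.resolve_left hne)) (h.le h.e2) ?_
  have e : (D : Set V) \ {s1, s0, s2} = U := by
    ext w
    simp only [mem_sdiff, Finset.mem_coe, h.mem, mem_insert_iff, mem_singleton_iff]
    constructor
    · tauto
    · intro hw
      refine ⟨Or.inl hw, ?_⟩
      rintro (rfl | rfl | rfl)
      exacts [h.n1 hw, h.n0 hw, h.n2 hw]
  rw [e]
  exact fun x hx y hy =>
    conn_congr (fun a _ b _ hab => h.le hab) (nh_cn h.nh h.hA h.conn x hx y hy)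

/-- The neighbours of `s1` in `U` when the corners differ. -/
theorem Sat.half (tb : StmtTB) (lk : StmtLINK) (h : Sat K H D F U A B s0 s1 s2) (hne : s1 ≠ s2) :
    ∃ (l : ℕ → V) (a : ℕ), Pa K l a ∧ l 0 = A ∧ ({s1, s2, l a} : Finset V) ∈ F ∧
      (∀ i ≤ a, l i ∈ U ∧ K.Adj s1 (l i)) ∧ ∀ u ∈ U, K.Adj s1 u → ∃ i ≤ a, l i = u := by
  obtain ⟨l, a, ha, l0, la, inj, mem, fc, all⟩ :=
    link_end lk h.tri (h.f1 tb) (h.f12 tb hne) fun e => h.n2 (e ▸ h.hA)
  obtain ⟨a, rfl⟩ : ∃ b, a = b + 1 := ⟨a - 1, by omega⟩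
  have hU : ∀ i ≤ a, l i ∈ U := fun i hi => by
    obtain ⟨m1, m2, m3⟩ := mem i (by omega)
    rcases (h.mem _).1 m2 with hU | e | e | e
    · exact hU
    · exact absurd e m1
    · exact absurd e m3.ne'
    · have := inj i (by omega) (a + 1) le_rfl (e.trans la.symm)
      omega
  refine ⟨l, a, ⟨fun i hi => h.face tb (hU i hi.le) (hU _ hi) (fc i (by omega)),
    fun i hi j hj => inj i (by omega) j (by omega)⟩, l0, ?_,
    fun i hi => ⟨hU i hi, h.adj tb (hU i hi) (mem i (by omega)).2.2⟩, fun u hu hsu => ?_⟩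
  · have := fc a (by omega)
    rwa [la, Finset.pair_comm] at this
  · rcases all u ((h.mem _).2 (Or.inl hu)) (h.le hsu) with rfl | ⟨i, hi, e⟩
    · exact absurd hu h.n0
    · rcases Nat.lt_or_ge a i with h' | h'
      · obtain rfl : i = a + 1 := by omega
        exact absurd hu (e ▸ la ▸ h.n2)
      · exact ⟨i, h', e⟩

/-- The only common neighbour of two different corners in `U` is the junction. -/
theorem Sat.common (tb : StmtTB) (h : Sat K H D F U A B s0 s1 s2) (hne : s1 ≠ s2) {J z : V}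
    (hJ : J ∈ U) (hf : ({s1, s2, J} : Finset V) ∈ F) (hz : z ∈ U) (a1 : K.Adj s1 z)
    (a2 : K.Adj s2 z) : z = J := by
  by_contra hn
  have f0 : ({s1, s2, s0} : Finset V) ∈ F := by
    have := h.f12 tb hne
    rwa [Finset.pair_comm] at this
  have n0 : s0 ≠ J := fun e => h.n0 (e ▸ hJ)
  refine tb.tsep V H D F h.tri s1 s2 z s0 J ⟨?_, SimpleGraph.is3Clique_triple_iff.2
    ⟨h.le (h.e12.resolve_left hne), h.le a1, h.le a2⟩⟩
    (fun hf' => hn (third h.tri f0 hf' hf (fun e => h.n0 (e ▸ hz)) n0)) f0 hf n0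
    (conn_congr (fun a _ b _ hab => h.le hab) ((h.reach hz hJ (Ne.symm hn)).symm.mono ?_))
  · intro w hw
    simp only [Finset.mem_insert, Finset.mem_singleton] at hw
    rw [h.mem]
    rcases hw with rfl | rfl | rfl <;> simp [hz]
  · rintro w (rfl | ⟨hw, hw'⟩)
    · refine ⟨(h.mem _).2 (by simp), ?_⟩
      rintro (e | e | e)
      · exact h.e1.ne e
      · exact h.e2.ne e
      · exact h.n0 (mem_singleton_iff.1 e ▸ hz)
    · refine ⟨(h.mem _).2 (Or.inl hw), ?_⟩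
      rintro (e | e | e)
      · exact h.n1 (e ▸ hw)
      · exact h.n2 (e ▸ hw)
      · exact hw' e

theorem Sat.bd (tb : StmtTB) (lk : StmtLINK) (h : Sat K H D F U A B s0 s1 s2) :
    ∃ q m j, Bd K U A B s1 s2 q m j := by
  by_cases hne : s1 = s2
  · subst hne
    have fB : ({s1, s0, B} : Finset V) ∈ F := by
      have := h.symm.f1 tb
      rwa [Finset.pair_comm] at this
    obtain ⟨l, a, -, l0, la, inj, mem, fc, all⟩ := link_end lk h.tri (h.f1 tb) fB h.ne
    have hU : ∀ i ≤ a, l i ∈ U := fun i hi => by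
      obtain ⟨m1, m2, m3⟩ := mem i hi
      rcases (h.mem _).1 m2 with hU | e | e | e
      · exact hU
      · exact absurd e m1
      · exact absurd e m3.ne'
      · exact absurd e m3.ne'
    have hall : ∀ u ∈ U, K.Adj s1 u → ∃ i ≤ a, l i = u := fun u hu hsu =>
      (all u ((h.mem _).2 (Or.inl hu)) (h.le hsu)).resolve_left fun e => h.n0 (e ▸ hu)
    refine ⟨l, a, a, ⟨fun i hi => h.face tb (hU i hi.le) (hU _ hi) (fc i hi), inj⟩, l0, la, hU,
      le_rfl, fun i hi => h.adj tb (hU i hi) (mem i hi).2.2,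
      fun i _ hi => h.adj tb (hU i hi) (mem i hi).2.2, fun u hu hsu => ?_, fun u hu hsu => ?_⟩
    · obtain ⟨i, hi, e⟩ := hall u hu hsu
      exact ⟨i, hi, e, Or.inr rfl⟩
    · obtain ⟨i, hi, e⟩ := hall u hu hsu
      exact ⟨i, hi, e, Or.inr rfl⟩
  · obtain ⟨l, a, pl, l0, fl, ml, al⟩ := h.half tb lk hne
    obtain ⟨r, b, pr, r0, fr, mr, ar⟩ := h.symm.half tb lk (Ne.symm hne)
    have f0 : ({s1, s2, s0} : Finset V) ∈ F := by
      have := h.f12 tb hne
      rwa [Finset.pair_comm] at this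
    have fr' : ({s1, s2, r b} : Finset V) ∈ F := by rwa [Finset.insert_comm]
    have hJ : l a = r b := third h.tri f0 fl fr' (fun e => h.n0 (e ▸ (ml a le_rfl).1))
      fun e => h.n0 (e ▸ (mr b le_rfl).1)
    obtain ⟨q, q1, q2⟩ : ∃ q : ℕ → V, (∀ i ≤ a, q i = l i) ∧ ∀ i, a ≤ i → q i = r (a + b - i) := by
      refine ⟨fun i => if i ≤ a then l i else r (a + b - i), fun i hi => if_pos hi, fun i hi => ?_⟩
      rcases hi.eq_or_lt with rfl | hi
      · simp [hJ]
      · exact if_neg (by omega)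
    have mix : ∀ i ≤ a, ∀ j, a < j → j ≤ a + b → l i ≠ r (a + b - j) := fun i hi j h1 h2 e => by
      have := h.common tb hne (ml a le_rfl).1 fl (ml i hi).1 (ml i hi).2
        (e ▸ (mr _ (by omega)).2)
      have := pr.inj (a + b - j) (by omega) b le_rfl (e.symm.trans (this.trans hJ))
      omega
    refine ⟨q, a + b, a, ⟨fun i hi => ?_,
      fun i hi j hj e => ?_⟩, (q1 0 (by omega)).trans l0, (q2 _ (by omega)).trans (by simp [r0]),
      fun i hi => ?_, by omega, fun i hi => ?_, fun i h1 h2 => ?_, fun u hu hsu => ?_,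
      fun u hu hsu => ?_⟩
    · rcases Nat.lt_or_ge i a with h1 | h1
      · rw [q1 i h1.le, q1 (i + 1) h1]
        exact pl.adj i h1
      · rw [q2 i h1, q2 (i + 1) (by omega)]
        have := (pr.adj (a + b - (i + 1)) (by omega)).symm
        rwa [show a + b - (i + 1) + 1 = a + b - i by omega] at this
    · rcases le_or_gt i a with h1 | h1 <;> rcases le_or_gt j a with h2 | h2
      · rw [q1 i h1, q1 j h2] at e
        exact pl.inj i h1 j h2 e
      · rw [q1 i h1, q2 j h2.le] at e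
        exact absurd e (mix i h1 j h2 hj)
      · rw [q2 i h1.le, q1 j h2] at e
        exact absurd e.symm (mix j h2 i h1 hi)
      · rw [q2 i h1.le, q2 j h2.le] at e
        have := pr.inj _ (by omega) _ (by omega) e
        omega
    · rcases le_or_gt i a with h1 | h1
      · rw [q1 i h1]
        exact (ml i h1).1
      · rw [q2 i h1.le]
        exact (mr _ (by omega)).1
    · rw [q1 i hi]
      exact (ml i hi).2
    · rw [q2 i h1]
      exact (mr _ (by omega)).2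
    · obtain ⟨i, hi, e⟩ := al u hu hsu
      exact ⟨i, by omega, (q1 i hi).trans e, Or.inl hi⟩
    · obtain ⟨i, hi, e⟩ := ar u hu hsu
      refine ⟨a + b - i, by omega, (q2 _ (by omega)).trans ?_, Or.inl (by omega)⟩
      rwa [show a + b - (a + b - i) = i by omega]

end BE

open BE in
theorem be (h1 : StmtTRI) (tb : StmtTB) (lk : StmtLINK) : StmtBE := by
  classical
  intro V _ _ G U A B s0 s1 s2 fr nh
  obtain ⟨D, hD⟩ : ∃ D : Finset V, ∀ v, v ∈ D ↔ v ∈ U ∨ v = s0 ∨ v = s1 ∨ v = s2 :=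
    ⟨Finset.univ.filter fun v => v ∈ U ∨ v = s0 ∨ v = s1 ∨ v = s2, fun v => by simp⟩
  have n0 : s0 ∉ U := fun h => disjoint_left.1 fr.d0 rfl h
  have n1 : s1 ∉ U := fun h => disjoint_left.1 fr.d1 rfl h
  have n2 : s2 ∉ U := fun h => disjoint_left.1 fr.d2 rfl h
  have e1 : G.Adj s0 s1 := sa_single.1 fr.e1
  have e2 : G.Adj s0 s2 := sa_single.1 fr.e2
  have dU : ∀ u ∈ U, u ∈ D := fun u hu => (hD u).2 (Or.inl hu)
  have d0 : s0 ∈ D := (hD _).2 (by simp)
  have d1 : s1 ∈ D := (hD _).2 (by simp)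
  have d2 : s2 ∈ D := (hD _).2 (by simp)
  let P : SimpleGraph V → Prop := fun K => Mac K ∧ GD G D ≤ K ∧ ∀ u v, K.Adj u v →
    (GD G D).Adj u v ∨ ((u = s1 ∨ u = s2) ∧ v ∈ U) ∨ ((v = s1 ∨ v = s2) ∧ u ∈ U)
  obtain ⟨K, -, ⟨hM, hle, hK⟩, hmax⟩ := Finite.exists_le_maximal (p := P) (a := GD G D)
    ⟨mac_mono fr.mac fun a b hab => hab.1, le_rfl, fun u v h => Or.inl h⟩
  have up : ∀ {u v}, G.Adj u v → u ∈ D → v ∈ D → K.Adj u v := fun h hu hv => hle ⟨h, hu, hv⟩
  have sup : ∀ u v, K.Adj u v → u ∈ D := fun u v h => by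
    rcases hK u v h with h | ⟨rfl | rfl, -⟩ | ⟨-, h⟩
    exacts [h.2.1, d1, d2, dU u h]
  have hcard : 4 ≤ D.card := by
    have : ({A, B, s0, s1} : Finset V).card = 4 := by
      rw [Finset.card_eq_four]
      exact ⟨A, B, s0, s1, fr.ne, fun e => n0 (e ▸ fr.hA), fun e => n1 (e ▸ fr.hA),
        fun e => n0 (e ▸ fr.hB), fun e => n1 (e ▸ fr.hB), e1.ne, rfl⟩
    rw [← this]
    refine Finset.card_le_card fun w hw => ?_
    simp only [Finset.mem_insert, Finset.mem_singleton] at hw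
    rcases hw with rfl | rfl | rfl | rfl
    exacts [dU _ fr.hA, dU _ fr.hB, d0, d1]
  obtain ⟨H, F, hH, hT⟩ := h1 V K D hM hcard
  have inU : ∀ u ∈ U, ∀ v ∈ U, G.Adj u v → K.Adj u v := fun u hu v hv h =>
    up h (dU u hu) (dU v hv)
  have e12 : s1 = s2 ∨ K.Adj s1 s2 := fr.d12.imp (fun e => singleton_injective e)
    fun h => up (sa_single.1 h.2) d1 d2
  have sat : Sat K H D F U A B s0 s1 s2 := by
    refine ⟨hT, fun a b hab => hH ⟨hab, sup a b hab, sup b a hab.symm⟩, hD, sup, fr.hA, fr.hB,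
      fr.ne, conn_congr inU fr.conn, nh_congr nh inU, n0, n1, n2,
      up (sa_single.1 fr.a0) d0 (dU _ fr.hA), up (sa_single.1 fr.b0) d0 (dU _ fr.hB),
      up (sa_single.1 fr.a1) d1 (dU _ fr.hA), up (sa_single.1 fr.b2) d2 (dU _ fr.hB),
      up e1 d0 d1, up e2 d0 d2, e12, fun s hs u hu hm => ?_⟩
    refine hmax (y := K ⊔ SimpleGraph.edge s u) ⟨hm, hle.trans le_sup_left, fun a b hab => ?_⟩
      le_sup_left (Or.inr ((SimpleGraph.edge_adj _ _ _ _).2 ⟨Or.inl ⟨rfl, rfl⟩, ?_⟩))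
    · rcases hab with hab | hab
      · exact hK a b hab
      · rw [SimpleGraph.edge_adj] at hab
        rcases hab.1 with ⟨rfl, rfl⟩ | ⟨rfl, rfl⟩
        · exact Or.inr (Or.inl ⟨hs, hu⟩)
        · exact Or.inr (Or.inr ⟨hs, hu⟩)
    · rintro rfl
      rcases hs with rfl | rfl
      exacts [n1 hu, n2 hu]
  obtain ⟨q, m, j, hb⟩ := sat.bd tb lk
  refine ⟨K, q, m, j, ⟨hM, fr.hA, fr.hB, fr.ne, sat.conn, fr.d0, fr.d1, fr.d2, fr.d01, fr.d02,
    fr.d12.imp id fun h => ⟨h.1, sa_single.2 (up (sa_single.1 h.2) d1 d2)⟩, cn_single _,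
    cn_single _, cn_single _, sa_single.2 sat.a0, sa_single.2 sat.b0, sa_single.2 sat.a1,
    sa_single.2 sat.b2, sa_single.2 sat.e1, sa_single.2 sat.e2⟩, hb,
    fun u hu v hv => ⟨fun h => ?_, inU u hu v hv⟩,
    fun u hu => ⟨fun h => ?_, fun h => up h d0 (dU u hu)⟩, fun u hu h => up h d1 (dU u hu),
    fun u hu h => up h d2 (dU u hu)⟩
  · rcases hK u v h with h | ⟨rfl | rfl, -⟩ | ⟨rfl | rfl, -⟩
    exacts [h.1, absurd hu n1, absurd hu n2, absurd hv n1, absurd hv n2]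
  · rcases hK s0 u h with h | ⟨e | e, -⟩ | ⟨-, h⟩
    exacts [h.1, absurd e e1.ne, absurd e e2.ne, absurd h n0]

end Pool.Agent.MP_856573_co.H74
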